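import Pool.Agent.Helper76.TK5.StK

/-!
# Project TK (level `3 * 5^n`), module UBHK: the upper bound for new symbols

Model: `Pool/Agent/Helper80/TH/M_UBH.lean`.
-/

set_option autoImplicit false

open Pool.Agent.Helper14.CV (Homog EqC act StFar)
open Pool.Agent.Helper14.W5
open Pool.Agent.Helper76.TK5 Pool.Agent.Helper4.TK

namespace Pool.Agent.Helper80.TK5

/-- The function `edgeK` of the transported potential as a linear map. -/
private noncomputable def Ls (μ k m : ℕ) (u1 u2 v1 v2 : ℤ) :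
    (ℤ → ℤ → ℂ) →ₗ[ℂ] (Pt m → ℂ) where
  toFun G := fun p : Pt m => edgeK μ u1 u2 v1 v2 (act 1 0 0 (5 ^ k) G) p.1 p.2
  map_add' G H := by
    funext p
    simp only [edgeK, act, Pi.add_apply]
    ring
  map_smul' c G := by
    funext p
    simp only [edgeK, act, Pi.smul_apply, smul_eq_mul, RingHom.id_apply]
    ring

/-- Three functions. -/
private noncomputable def L3 (k : ℕ) : (ℤ → ℤ → ℂ) →ₗ[ℂ] (((Pt k → ℂ) × (Pt k → ℂ)) × (Pt k → ℂ)) :=
  ((Ls 0 k k 1 0 0 1).prod (Ls 0 k k 1 0 1 2)).prod (Ls 0 k k 1 0 1 3)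

/-- Five functions. -/
private noncomputable def L5 (k m : ℕ) : (ℤ → ℤ → ℂ) →ₗ[ℂ]
    (((Pt m → ℂ) × (Pt m → ℂ)) × ((Pt m → ℂ) × ((Pt m → ℂ) × (Pt m → ℂ)))) :=
  ((Ls 1 k m 1 0 0 1).prod (Ls 1 k m 1 3 1 2)).prod
    ((Ls 1 k m 1 0 1 1).prod ((Ls 1 k m 1 1 4 3).prod (Ls 1 k m 1 0 2 1)))

private theorem build (n D : ℕ) {W : Type} [AddCommGroup W] [Module ℂ W] [Module.Finite ℂ W]
    (hW : Module.finrank ℂ W ≤ D) (L : NSK 5 n →ₗ[ℂ] W)
    (hinj : ∀ G : NSK 5 n, L G = 0 → EqC (G : ℤ → ℤ → ℂ) 0) :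
    ∃ Θ : NSK 5 n →ₗ[ℂ] (Fin D → ℂ), ∀ G : NSK 5 n, Θ G = 0 → EqC (G : ℤ → ℤ → ℂ) 0 := by
  have h0 : Module.finrank ℂ W ≤ Module.finrank ℂ (Fin D → ℂ) := by simpa using hW
  obtain ⟨e, he⟩ := finrank_le_iff_exists_linearMap.1 h0
  refine ⟨e.comp L, fun G hG => hinj G ?_⟩
  apply he
  rw [map_zero]
  exact hG

/-- Module UBHK. -/
theorem hUBHK : StHUBK := by
  intro hBal hE1a hE1b hO1 hDimE hDimO n hn
  rcases Nat.even_or_odd' n with ⟨k, hk | hk⟩
  · -- even exponent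
    subst hk
    have hk2 : 2 ≤ k := by omega
    have key : ∀ G ∈ NSK 5 (2 * k), L5 k (k - 1) G ∈ subEK (k - 1) ∧
        (L5 k (k - 1) G = 0 → EqC G 0) := by
      intro G hG
      have hN : NewSymK 5 (2 * k) G := hG
      have hB := (hBal k G (by omega)).1 hN
      have a1 := hE1a k _ hk2 hB
      have a2 := hE1b k _ hk2 hB
      refine ⟨a1, fun h0 => ?_⟩
      have h1 := congrArg (fun z => z.1.1) h0
      have h2 := congrArg (fun z => z.1.2) h0
      have h3 := congrArg (fun z => z.2.1) h0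
      have h4 := congrArg (fun z => z.2.2.1) h0
      have h5 := congrArg (fun z => z.2.2.2) h0
      have h6 := a2 (fun x y => ⟨⟨congrFun h1 (x, y), congrFun h2 (x, y)⟩, congrFun h3 (x, y),
        congrFun h4 (x, y), congrFun h5 (x, y)⟩)
      exact (hBal k G (by omega)).2.2 hN.1.1 h6
    have hd : ddK5 (2 * k) = 40 * 25 ^ (k - 2) := by
      have h2k : 2 * k / 2 = k := by omega
      unfold ddK5
      rw [if_neg (by omega), h2k]
    rw [hd]
    let L1 : NSK 5 (2 * k) →ₗ[ℂ] subEK (k - 1) :=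
      ((L5 k (k - 1)).comp (NSK 5 (2 * k)).subtype).codRestrict (subEK (k - 1))
        (fun G => (key G G.2).1)
    refine build (2 * k) _ ?_ L1 (fun G hG => ?_)
    · rw [hDimE (k - 1) (by omega)]
      have e : k - 1 - 1 = k - 2 := by omega
      rw [e]
    · exact (key G G.2).2 (congrArg Subtype.val hG)
  · -- odd exponent
    subst hk
    have hk1 : 1 ≤ k := by omega
    have key : ∀ G ∈ NSK 5 (2 * k + 1), L3 k G ∈ subOK k ∧ (L3 k G = 0 → EqC G 0) := by
      intro G hG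
      have hN : NewSymK 5 (2 * k + 1) G := hG
      have hB := (hBal k G hk1).2.1 hN
      obtain ⟨a1, a2⟩ := hO1 k _ hk1 hB
      refine ⟨a1, fun h0 => ?_⟩
      have h1 := congrArg (fun z => z.1.1) h0
      have h2 := congrArg (fun z => z.1.2) h0
      have h3 := congrArg (fun z => z.2) h0
      have h4 := a2 (fun x y => ⟨congrFun h1 (x, y), congrFun h2 (x, y), congrFun h3 (x, y)⟩)
      exact (hBal k G hk1).2.2 hN.1.1 h4
    have hd : ddK5 (2 * k + 1) = 8 * 25 ^ (k - 1) + 4 * 5 ^ (k - 1) := by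
      have h2k : (2 * k + 1) / 2 = k := by omega
      unfold ddK5
      rw [if_pos (by omega), h2k]
    rw [hd]
    let L1 : NSK 5 (2 * k + 1) →ₗ[ℂ] subOK k :=
      ((L3 k).comp (NSK 5 (2 * k + 1)).subtype).codRestrict (subOK k)
        (fun G => (key G G.2).1)
    refine build (2 * k + 1) _ ?_ L1 (fun G hG => ?_)
    · rw [hDimO k hk1]
    · exact (key G G.2).2 (congrArg Subtype.val hG)

end Pool.Agent.Helper80.TK5
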